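import Pool.Agent.N139.AS.Stm

set_option autoImplicit false

namespace Pool.Agent.N377.AS

open Finset
open Pool.Agent.N139.AS

section gen

variable {N : Type} [Group N] {S : WD N}

theorem shift_iff (hS : S.Ok) (i : ℕ) (a b : ℤ) (n : N) :
    (S.σ ^ i) n ∈ S.W (a + i) (b + i) ↔ n ∈ S.W a b := by
  induction i with
  | zero => simp
  | succ i ih =>
    rw [pow_succ', MulAut.mul_apply]
    have := hS.shift (a + i) (b + i) ((S.σ ^ i) n)
    rw [← ih, ← this]
    push_cast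
    rw [add_assoc, add_assoc]

theorem act_one {R : ℕ} {H : Type} [Group H] {α : N → H} {t : H} (h : Act S R α t) : α 1 = 1 := by
  have := h.mul 1 (one_mem _) 1 (one_mem _)
  rw [mul_one] at this
  exact left_eq_mul.mp this

theorem act_pow (hS : S.Ok) {R : ℕ} {H : Type} [Group H] {α : N → H} {t : H} (h : Act S R α t)
    {j : ℕ} (hj : j < R) {w : N} (hw : w ∈ S.W (-(j : ℤ)) 0) (i : ℕ) (hi : i ≤ j) :
    t ^ i * α w = α ((S.σ ^ i) w) * t ^ i := by
  induction i with
  | zero => simp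
  | succ i ih =>
    have h1 := ih (by omega)
    have h2 : (S.σ ^ i) w ∈ S.W (-R) (R - 1) := by
      have h3 := (shift_iff hS i (-(j : ℤ)) 0 w).mpr hw
      refine hS.mono _ _ _ _ ?_ ?_ h3
      · omega
      · omega
    rw [pow_succ', mul_assoc, h1, ← mul_assoc, h.rel _ h2, pow_succ' S.σ, MulAut.mul_apply,
      mul_assoc]

/-- columns -/
@[ext] structure ZZ (X : Type) (C : ℕ → X → Prop) where
  j : ℕ
  i : ℕ
  x : X
  hi : i < j
  hc : C j x

/-- the action of `N` on the columns -/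
noncomputable def actZ (hS : S.Ok) {R : ℕ} {X : Type} {α : N → Equiv.Perm X} {t : Equiv.Perm X}
    (h : Act S R α t) {C : ℕ → X → Prop} (hC : ∀ j x w, C j x → w ∈ S.W (-(j : ℤ)) 0 → C j (α w x))
    (hR : ∀ j x, C j x → j < R) : MulAction N (ZZ X C) where
  smul n z := ⟨z.j, z.i, α (S.f z.j ((S.σ ^ z.i)⁻¹ n)) z.x, z.hi,
    hC _ _ _ z.hc (hS.f_mem _ _ (lt_of_le_of_lt (Nat.zero_le _) z.hi))⟩
  one_smul z := by
    show (⟨_, _, _, _, _⟩ : ZZ X C) = z
    apply ZZ.ext
    · rfl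
    · rfl
    · show α (S.f z.j ((S.σ ^ z.i)⁻¹ 1)) z.x = z.x
      rw [map_one, map_one, act_one h]
      rfl
  mul_smul n n' z := by
    show (⟨_, _, _, _, _⟩ : ZZ X C) = ⟨_, _, _, _, _⟩
    apply ZZ.ext
    · rfl
    · rfl
    · show α (S.f z.j ((S.σ ^ z.i)⁻¹ (n * n'))) z.x =
        α (S.f z.j ((S.σ ^ z.i)⁻¹ n)) (α (S.f z.j ((S.σ ^ z.i)⁻¹ n')) z.x)
      have hj : 0 < z.j := lt_of_le_of_lt (Nat.zero_le _) z.hi
      have hR' := hR _ _ z.hc
      have key : ∀ q : N, S.f z.j q ∈ S.W (-R) R := fun q =>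
        hS.mono _ _ _ _ (by omega) (by omega) (hS.f_mem z.j q hj)
      rw [map_mul, map_mul, h.mul _ (key _) _ (key _)]
      rfl

/-- the shift on the columns -/
def tZ (X : Type) (C : ℕ → X → Prop) : Equiv.Perm (ZZ X C) where
  toFun z := if h : z.i + 1 < z.j then ⟨z.j, z.i + 1, z.x, h, z.hc⟩
    else ⟨z.j, 0, z.x, lt_of_le_of_lt (Nat.zero_le _) z.hi, z.hc⟩
  invFun z := if z.i = 0 then
      ⟨z.j, z.j - 1, z.x, Nat.sub_lt (lt_of_le_of_lt (Nat.zero_le _) z.hi) one_pos, z.hc⟩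
    else ⟨z.j, z.i - 1, z.x, lt_of_le_of_lt (Nat.sub_le _ _) z.hi, z.hc⟩
  left_inv z := by
    by_cases h : z.i + 1 < z.j
    · simp only [dif_pos h]
      rw [if_neg (by simp)]
      apply ZZ.ext
      · rfl
      · simp
      · rfl
    · simp only [dif_neg h]
      rw [if_pos (by simp)]
      apply ZZ.ext
      · rfl
      · have := z.hi
        show z.j - 1 = z.i
        omega
      · rfl
  right_inv z := by
    by_cases h : z.i = 0
    · simp only [if_pos h]
      have := z.hi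
      rw [dif_neg (by show ¬ (z.j - 1 + 1 < z.j); omega)]
      apply ZZ.ext
      · rfl
      · show 0 = z.i
        omega
      · rfl
    · simp only [if_neg h]
      have := z.hi
      rw [dif_pos (by show z.i - 1 + 1 < z.j; omega)]
      apply ZZ.ext
      · rfl
      · show z.i - 1 + 1 = z.i
        omega
      · rfl

theorem tZ_lt {X : Type} {C : ℕ → X → Prop} (z : ZZ X C) (h : z.i + 1 < z.j) :
    tZ X C z = ⟨z.j, z.i + 1, z.x, h, z.hc⟩ := by
  show (if h : z.i + 1 < z.j then _ else _) = _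
  rw [dif_pos h]

theorem tZ_ge {X : Type} {C : ℕ → X → Prop} (z : ZZ X C) (h : ¬ z.i + 1 < z.j) :
    tZ X C z = ⟨z.j, 0, z.x, lt_of_le_of_lt (Nat.zero_le _) z.hi, z.hc⟩ := by
  show (if h : z.i + 1 < z.j then _ else _) = _
  rw [dif_neg h]

theorem tZ_j {X : Type} {C : ℕ → X → Prop} (z : ZZ X C) : (tZ X C z).j = z.j := by
  by_cases h : z.i + 1 < z.j
  · rw [tZ_lt z h]
  · rw [tZ_ge z h]

theorem tZ_x {X : Type} {C : ℕ → X → Prop} (z : ZZ X C) : (tZ X C z).x = z.x := by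
  by_cases h : z.i + 1 < z.j
  · rw [tZ_lt z h]
  · rw [tZ_ge z h]

theorem tZ_i_lt {X : Type} {C : ℕ → X → Prop} (z : ZZ X C) (h : z.i + 1 < z.j) :
    (tZ X C z).i = z.i + 1 := by
  rw [tZ_lt z h]

theorem tZ_i_ge {X : Type} {C : ℕ → X → Prop} (z : ZZ X C) (h : ¬ z.i + 1 < z.j) :
    (tZ X C z).i = 0 := by
  rw [tZ_ge z h]

/-- the homomorphism to the permutations of the columns -/
theorem exists_psiZ (hS : S.Ok) {R : ℕ} {X : Type} {α : N → Equiv.Perm X} {t : Equiv.Perm X}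
    (h : Act S R α t) {C : ℕ → X → Prop} (hC : ∀ j x w, C j x → w ∈ S.W (-(j : ℤ)) 0 → C j (α w x))
    (hR : ∀ j x, C j x → j < R) :
    ∃ ψ : GG S →* Equiv.Perm (ZZ X C), ψ (tt S) = tZ X C ∧
      ∀ n z, (ψ (inn S n) z).j = z.j ∧ (ψ (inn S n) z).i = z.i ∧
        (ψ (inn S n) z).x = α (S.f z.j ((S.σ ^ z.i)⁻¹ n)) z.x := by
  letI := actZ hS h hC hR
  have hsm : ∀ (n : N) (z : ZZ X C), n • z = ⟨z.j, z.i, α (S.f z.j ((S.σ ^ z.i)⁻¹ n)) z.x, z.hi,
      hC _ _ _ z.hc (hS.f_mem _ _ (lt_of_le_of_lt (Nat.zero_le _) z.hi))⟩ := fun n z => rfl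
  obtain ⟨ψ, h1, h2⟩ := exists_lift S (MulAction.toPermHom N (ZZ X C)) (tZ X C) (by
    intro n
    ext1 z
    show tZ X C (n • z) = (S.σ n) • (tZ X C z)
    have hj : 0 < z.j := lt_of_le_of_lt (Nat.zero_le _) z.hi
    have sj : ∀ (n : N) (z : ZZ X C), (n • z).j = z.j := fun n z => rfl
    have si : ∀ (n : N) (z : ZZ X C), (n • z).i = z.i := fun n z => rfl
    have sx : ∀ (n : N) (z : ZZ X C), (n • z).x = α (S.f z.j ((S.σ ^ z.i)⁻¹ n)) z.x :=
      fun n z => rfl
    by_cases hz : z.i + 1 < z.j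
    · have hz' : (n • z).i + 1 < (n • z).j := hz
      apply ZZ.ext
      · rw [tZ_j, sj, sj, tZ_j]
      · rw [tZ_i_lt _ hz', si, si, tZ_i_lt _ hz]
      · rw [tZ_x, sx, sx, tZ_j, tZ_i_lt _ hz, tZ_x, pow_succ', mul_inv_rev, MulAut.mul_apply,
          MulAut.inv_apply_self]
    · have hz' : ¬ ((n • z).i + 1 < (n • z).j) := hz
      apply ZZ.ext
      · rw [tZ_j, sj, sj, tZ_j]
      · rw [tZ_i_ge _ hz', si, tZ_i_ge _ hz]
      · rw [tZ_x, sx, sx, tZ_j, tZ_i_ge _ hz, tZ_x]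
        have h3 : z.i + 1 = z.j := by have := z.hi; omega
        rw [← hS.f_per z.j ((S.σ ^ z.i)⁻¹ n) hj]
        have h4 : (S.σ ^ z.j) ((S.σ ^ z.i)⁻¹ n) = (S.σ ^ 0)⁻¹ (S.σ n) := by
          rw [← h3, pow_succ', MulAut.mul_apply, MulAut.apply_inv_self, pow_zero, inv_one,
            MulAut.one_apply]
        rw [h4])
  refine ⟨ψ, h1, fun n z => ?_⟩
  rw [h2]
  exact ⟨rfl, rfl, rfl⟩

end gen

/-- columns over the marks -/
def Col {X : Type} (B Y : X → Prop) (t : Equiv.Perm X) (KK j : ℕ) (x : X) : Prop :=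
  0 < j ∧ j ≤ KK ∧ B x ∧ (∀ h : ℕ, 0 < h → h < j → ¬ B ((t ^ h) x)) ∧ B ((t ^ j) x) ∧
    ∀ i < j, Y ((t ^ i) x)

theorem ct_le_of_imp {X : Type} [Fintype X] {P Q : X → Prop} (h : ∀ x, P x → Q x) :
    ct P ≤ ct Q := by
  unfold ct
  exact_mod_cast card_le_card (fun x hx => by
    simp only [mem_filter, mem_univ, true_and] at hx ⊢
    exact h x hx)

theorem ct_or {X : Type} [Fintype X] (P Q : X → Prop) :
    ct (fun x => P x ∨ Q x) ≤ ct P + ct Q := by
  classical
  unfold ct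
  have : (univ.filter fun x => P x ∨ Q x) = univ.filter P ∪ univ.filter Q := by
    ext x; simp
  have h2 := card_union_le (univ.filter P) (univ.filter Q)
  rw [← this] at h2
  exact_mod_cast (by convert h2)

theorem ct_perm {X : Type} [Fintype X] (P : X → Prop) (t : Equiv.Perm X) :
    ct (fun x => P (t x)) = ct P := by
  classical
  unfold ct
  congr 1
  refine card_bij (fun x _ => t x) ?_ ?_ ?_
  · intro x hx
    simpa using hx
  · intro x _ y _ hxy
    exact t.injective hxy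
  · intro y hy
    exact ⟨t.symm y, by simpa using hy, by simp⟩

theorem ct_ex {X : Type} [Fintype X] (n : ℕ) (P : ℕ → X → Prop) (c : ℝ) (h : ∀ i, ct (P i) ≤ c) :
    ct (fun x => ∃ i < n, P i x) ≤ n * c := by
  induction n with
  | zero =>
    simp only [not_lt_zero, false_and, exists_false, Nat.cast_zero, zero_mul]
    unfold ct
    simp
  | succ n ih =>
    calc ct (fun x => ∃ i < n + 1, P i x)
        ≤ ct (fun x => (∃ i < n, P i x) ∨ P n x) := by
          apply ct_le_of_imp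
          rintro x ⟨i, hi, hx⟩
          rcases Nat.lt_succ_iff_lt_or_eq.mp hi with h | h
          · exact Or.inl ⟨i, h, hx⟩
          · exact Or.inr (h ▸ hx)
      _ ≤ _ := ct_or _ _
      _ ≤ n * c + c := add_le_add ih (h n)
      _ = _ := by push_cast; ring

theorem t_SKYP : S_SKYP := by
  intro N _ S hS m K R hKR X _ α t hA B Y hBY
  classical
  set KK : ℕ := 2 * K with hKK
  -- invariance in both directions
  have hone := act_one hA
  have hinv : ∀ n ∈ S.W (-(KK : ℤ)) KK, ∀ x, (B (α n x) ↔ B x) ∧ (Y (α n x) ↔ Y x) := by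
    intro n hn x
    have hW : ∀ w ∈ S.W (-(KK : ℤ)) KK, w ∈ S.W (-R) R := fun w hw =>
      hS.mono _ _ _ _ (by omega) (by omega) hw
    have h1 : α n⁻¹ (α n x) = x := by
      have h2 := hA.mul _ (hW _ (inv_mem hn)) _ (hW _ hn)
      rw [inv_mul_cancel, hone] at h2
      have h3 := congrArg (fun q : Equiv.Perm X => q x) h2
      exact h3.symm
    have h4 := hBY n (by simpa [hKK] using hn) x
    have h5 := hBY n⁻¹ (by simpa [hKK] using inv_mem hn) (α n x)
    rw [h1] at h5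
    exact ⟨⟨h5.1, h4.1⟩, ⟨h5.2, h4.2⟩⟩
  have hR : ∀ j x, Col B Y t KK j x → j < R := fun j x h => lt_of_le_of_lt h.2.1 hKR
  have hmv : ∀ (j : ℕ) (w : N) (x : X), j ≤ KK → w ∈ S.W (-(j : ℤ)) 0 → ∀ i ≤ j,
      (B ((t ^ i) (α w x)) ↔ B ((t ^ i) x)) ∧ (Y ((t ^ i) (α w x)) ↔ Y ((t ^ i) x)) := by
    intro j w x hj hw i hi
    have h1 : (t ^ i) (α w x) = α ((S.σ ^ i) w) ((t ^ i) x) := by
      have h2 := act_pow hS hA (lt_of_le_of_lt hj hKR) hw i hi
      exact congrArg (fun q : Equiv.Perm X => q x) h2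
    rw [h1]
    apply hinv
    have h3 := (shift_iff hS i (-(j : ℤ)) 0 w).mpr hw
    exact hS.mono _ _ _ _ (by omega) (by omega) h3
  have hC : ∀ j x w, Col B Y t KK j x → w ∈ S.W (-(j : ℤ)) 0 → Col B Y t KK j (α w x) := by
    rintro j x w ⟨h0, h1, h2, h3, h4, h5⟩ hw
    refine ⟨h0, h1, ?_, ?_, ?_, ?_⟩
    · have := (hmv j w x h1 hw 0 (Nat.zero_le _)).1
      simp only [pow_zero, Equiv.Perm.coe_one, id_eq] at this
      exact this.mpr h2
    · intro h hh hhj
      rw [(hmv j w x h1 hw h hhj.le).1]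
      exact h3 h hh hhj
    · rw [(hmv j w x h1 hw j le_rfl).1]
      exact h4
    · intro i hi
      rw [(hmv j w x h1 hw i hi.le).2]
      exact h5 i hi
  obtain ⟨ψ0, hψt, hψn⟩ := exists_psiZ hS hA hC hR
  -- the embedding
  have hinj : Function.Injective (fun z : ZZ X (Col B Y t KK) => (t ^ z.i) z.x) := by
    have key : ∀ z z' : ZZ X (Col B Y t KK), (t ^ z.i) z.x = (t ^ z'.i) z'.x → z.i ≤ z'.i →
        z = z' := by
      intro z z' h hle
      obtain ⟨d, hd⟩ := Nat.exists_eq_add_of_le hle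
      rw [hd, pow_add, Equiv.Perm.mul_apply] at h
      have h1 : z.x = (t ^ d) z'.x := (t ^ z.i).injective h
      have hd0 : d = 0 := by
        by_contra hne
        have h2 := z'.hc.2.2.2.1 d (Nat.pos_of_ne_zero hne) (by have := z'.hi; omega)
        rw [← h1] at h2
        exact h2 z.hc.2.2.1
      subst hd0
      have h3 : z.x = z'.x := by simpa using h1
      have h4 : z.j = z'.j := by
        rcases lt_trichotomy z.j z'.j with h4 | h4 | h4
        · exfalso
          have h5 := z'.hc.2.2.2.1 z.j z.hc.1 h4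
          rw [← h3] at h5
          exact h5 z.hc.2.2.2.2.1
        · exact h4
        · exfalso
          have h5 := z.hc.2.2.2.1 z'.j z'.hc.1 h4
          rw [h3] at h5
          exact h5 z'.hc.2.2.2.2.1
      exact ZZ.ext h4 (by omega) h3
    intro z z' h
    rcases le_total z.i z'.i with h1 | h1
    · exact key z z' h h1
    · exact (key z' z h.symm h1).symm
  let ι : ZZ X (Col B Y t KK) ↪ X := ⟨fun z => (t ^ z.i) z.x, hinj⟩
  have hι : ∀ z, ι z = (t ^ z.i) z.x := fun z => rfl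
  have hψι : ∀ g z, (Equiv.Perm.viaEmbeddingHom ι).comp ψ0 g (ι z) = ι (ψ0 g z) := by
    intro g z
    show Equiv.Perm.viaEmbedding (ψ0 g) ι (ι z) = _
    exact Equiv.Perm.viaEmbedding_apply _ _ _
  have hψout : ∀ g x, x ∉ Set.range ι → (Equiv.Perm.viaEmbeddingHom ι).comp ψ0 g x = x := by
    intro g x hx
    show Equiv.Perm.viaEmbedding (ψ0 g) ι x = _
    exact Equiv.Perm.viaEmbedding_apply_of_notMem _ _ _ hx
  refine ⟨(Equiv.Perm.viaEmbeddingHom ι).comp ψ0, ?_, ?_⟩
  · intro g x hx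
    apply hψout
    rintro ⟨z, rfl⟩
    exact hx (z.hc.2.2.2.2.2 z.i z.hi)
  · -- the bad points
    have hbad : ∀ x, (Y x ∧ ((Equiv.Perm.viaEmbeddingHom ι).comp ψ0 (tt S) x ≠ t x ∨
        ∃ n ∈ S.W (-m) m, (Equiv.Perm.viaEmbeddingHom ι).comp ψ0 (inn S n) x ≠ α n x)) →
        ((((∃ i < m, B ((t⁻¹ ^ i) x)) ∨ (∃ i < m + 1, B ((t ^ (i + 1)) x))) ∨
          (Y x ∧ ∀ i : ℕ, i ≤ K → ¬ B ((t⁻¹ ^ i) x))) ∨
          (Y x ∧ ∀ i : ℕ, 1 ≤ i → i ≤ K → ¬ B ((t ^ i) x))) ∨
          (Y x ∧ ∃ i : ℤ, |i| ≤ K ∧ ¬ Y ((t ^ i) x)) := by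
      rintro x ⟨hY, hx⟩
      by_contra hcon
      simp only [not_or, not_and, not_forall, not_exists, not_not] at hcon
      obtain ⟨⟨⟨⟨hc1, hc2⟩, hc3⟩, hc4⟩, hc5⟩ := hcon
      -- x is in the range
      have hr : x ∈ Set.range ι := by
        obtain ⟨i0, hi0, hB0⟩ := hc3 hY
        obtain ⟨i1, hi1, hi1', hB1⟩ := hc4 hY
        have hex1 : ∃ i, B ((t⁻¹ ^ i) x) := ⟨i0, hB0⟩
        have hex2 : ∃ i, 1 ≤ i ∧ B ((t ^ i) x) := ⟨i1, hi1, hB1⟩
        set a := Nat.find hex1 with ha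
        set b := Nat.find hex2 with hb
        have ha1 : B ((t⁻¹ ^ a) x) := Nat.find_spec hex1
        have hb1 := Nat.find_spec hex2
        rw [← hb] at hb1
        have ha2 : a ≤ K := (Nat.find_min' hex1 hB0).trans hi0
        have hb2 : b ≤ K := (Nat.find_min' hex2 ⟨hi1, hB1⟩).trans hi1'
        have hp : ∀ l : ℕ, (t ^ l) ((t⁻¹ ^ a) x) = (t ^ ((l : ℤ) - a)) x := by
          intro l
          rw [← Equiv.Perm.mul_apply, zpow_sub, zpow_natCast, zpow_natCast, inv_pow]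
        have hcol : Col B Y t KK (a + b) ((t⁻¹ ^ a) x) := by
          refine ⟨by omega, by omega, ha1, ?_, ?_, ?_⟩
          · intro h hh hhj
            rw [hp]
            rcases le_or_gt h a with h1 | h1
            · have h2 : (t ^ ((h : ℤ) - a)) x = (t⁻¹ ^ (a - h)) x := by
                rw [inv_pow, ← zpow_natCast, ← zpow_neg]
                congr 2
                omega
              rw [h2]
              exact Nat.find_min hex1 (by omega)
            · have h2 : (t ^ ((h : ℤ) - a)) x = (t ^ (h - a)) x := by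
                rw [← zpow_natCast]
                congr 2
                omega
              rw [h2]
              intro h3
              exact Nat.find_min hex2 (m := h - a) (by omega) ⟨by omega, h3⟩
          · rw [hp]
            have h2 : (t ^ (((a + b : ℕ) : ℤ) - a)) x = (t ^ b) x := by
              rw [← zpow_natCast]
              congr 2
              omega
            rw [h2]
            exact hb1.2
          · intro i hi
            rw [hp]
            exact hc5 hY _ (by rw [abs_le]; constructor <;> omega)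
        refine ⟨⟨a + b, a, (t⁻¹ ^ a) x, by omega, hcol⟩, ?_⟩
        rw [hι]
        show (t ^ a) ((t⁻¹ ^ a) x) = x
        rw [← Equiv.Perm.mul_apply, inv_pow, mul_inv_cancel, Equiv.Perm.one_apply]
      obtain ⟨z, rfl⟩ := hr
      have hz1 : B ((t⁻¹ ^ z.i) (ι z)) := by
        rw [hι, ← Equiv.Perm.mul_apply, inv_pow, inv_mul_cancel, Equiv.Perm.one_apply]
        exact z.hc.2.2.1
      have hz2 : B ((t ^ (z.j - z.i)) (ι z)) := by
        rw [hι, ← Equiv.Perm.mul_apply, ← pow_add, Nat.sub_add_cancel z.hi.le]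
        exact z.hc.2.2.2.2.1
      have hi1 : m ≤ z.i := by
        by_contra hlt
        exact hc1 z.i (by omega) hz1
      have hi2 : m + 2 ≤ z.j - z.i := by
        by_contra hlt
        have := z.hi
        refine hc2 (z.j - z.i - 1) (by omega) ?_
        rw [Nat.sub_add_cancel (by omega)]
        exact hz2
      rcases hx with hx | ⟨n, hn, hx⟩
      · apply hx
        rw [hψι, hψt, tZ_lt z (by omega), hι, hι]
        show (t ^ (z.i + 1)) z.x = t ((t ^ z.i) z.x)
        rw [pow_succ', Equiv.Perm.mul_apply]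
      · apply hx
        obtain ⟨g1, g2, g3⟩ := hψn n z
        rw [hψι, hι, g2, g3, hι]
        have hn' : (S.σ ^ z.i)⁻¹ n ∈ S.W (-(z.j : ℤ)) 0 := by
          have h1 : (S.σ ^ z.i)⁻¹ n ∈ S.W (-(m : ℤ) - z.i) (m - z.i) := by
            rw [← shift_iff hS z.i, MulAut.apply_inv_self]
            simpa using hn
          exact hS.mono _ _ _ _ (by omega) (by omega) h1
        rw [hS.f_id z.j _ z.hc.1 hn']
        have h2 := act_pow hS hA (hR _ _ z.hc) hn' z.i z.hi.le
        rw [MulAut.apply_inv_self] at h2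
        exact congrArg (fun q : Equiv.Perm X => q z.x) h2
    have hB0 : ct B ≥ 0 := by unfold ct; positivity
    have e1 : ct (fun x => ∃ i < m, B ((t⁻¹ ^ i) x)) ≤ m * ct B :=
      ct_ex m (fun i x => B ((t⁻¹ ^ i) x)) _ (fun i => (ct_perm B (t⁻¹ ^ i)).le)
    have e2 : ct (fun x => ∃ i < m + 1, B ((t ^ (i + 1)) x)) ≤ (m + 1 : ℕ) * ct B :=
      ct_ex (m + 1) (fun i x => B ((t ^ (i + 1)) x)) _ (fun i => (ct_perm B (t ^ (i + 1))).le)
    refine (ct_le_of_imp hbad).trans ?_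
    refine (ct_or _ _).trans (add_le_add ?_ le_rfl)
    refine (ct_or _ _).trans (add_le_add ?_ le_rfl)
    refine (ct_or _ _).trans (add_le_add ?_ le_rfl)
    refine (ct_or _ _).trans ?_
    rw [Nat.cast_add, Nat.cast_one] at e2
    linarith

end Pool.Agent.N377.AS
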